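import Pool.Agent.T2h62.J15.PENi

/-!
The induction on the number of blocks of variables.
-/

set_option autoImplicit false

open FF MvPolynomial Pool.Agent.Z15.H Pool.Agent.Z15.J Pool.Agent.Z15.J.Stm

namespace Pool.Agent.T2h62.J15

/-! ### Reindexing -/

section reindex

variable {K : Type} [Field K] {ι ι' : Type} (σ : ι ≃ ι')

/-- transport of cycles under a bijection of the coordinates -/
noncomputable def tr : (Set (MvPolynomial ι K) →₀ ℤ) →+ (Set (MvPolynomial ι' K) →₀ ℤ) :=
  Finsupp.mapDomain.addMonoidHom (fun S => (rename σ) '' S)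

theorem tr_single (S : Set (MvPolynomial ι K)) (n : ℤ) :
    tr σ (Finsupp.single S n) = Finsupp.single ((rename σ) '' S) n := Finsupp.mapDomain_single

theorem rename_symm (G : MvPolynomial ι' K) : rename σ (rename σ.symm G) = G := by
  rw [rename_rename, Equiv.self_comp_symm, rename_id_apply]

theorem locus_reindex {E : Type} [Field E] [Algebra K E] (P : ι → E) :
    (rename σ : MvPolynomial ι K → MvPolynomial ι' K) '' locus K P = locus K (fun i => P (σ.symm i)) := by
  have key : ∀ H : MvPolynomial ι K, aeval (fun i => P (σ.symm i)) (rename σ H) = aeval P H := by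
    intro H
    rw [aeval_rename]
    congr 2
    funext i
    simp
  ext G
  constructor
  · rintro ⟨H, hH, rfl⟩ n
    rw [← rename_homogeneousComponent, key]
    exact hH n
  · intro hG
    refine ⟨rename σ.symm G, fun n => ?_, rename_symm σ G⟩
    rw [← key, rename_homogeneousComponent, rename_symm]
    exact hG n

theorem ratio_reindex {E : Type} [Field E] [Algebra K E] (P : ι → E) :
    ratioField K (fun i => P (σ.symm i)) = ratioField K P := by
  unfold ratioField
  congr 1
  ext z
  constructor
  · rintro ⟨i, j, h⟩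
    exact ⟨σ.symm i, σ.symm j, h⟩
  · rintro ⟨i, j, h⟩
    exact ⟨σ i, σ j, by simpa using h⟩

theorem cyc_reindex {E : Type} [Field E] [Algebra K E] (P : ι → E) :
    tr σ (cyc K P) = cyc K (fun i => P (σ.symm i)) := by
  unfold cyc
  rw [tr_single, locus_reindex, ratio_reindex]

theorem lin_reindex (fl : ℕ → ι → K) (l : ℕ) :
    tr σ (lin K fl l) = lin K (fun i j => fl i (σ.symm j)) l := by
  unfold lin
  rw [tr_single]
  congr 1
  have key : ∀ (H : MvPolynomial ι K) (a : Fin (l + 1) → K),
      eval (fun i => ∑ j : Fin (l + 1), a j * fl j (σ.symm i)) (rename σ H) =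
        eval (fun i => ∑ j : Fin (l + 1), a j * fl j i) H := by
    intro H a
    rw [eval_rename]
    congr 2
    funext i
    simp
  ext G
  constructor
  · rintro ⟨H, hH, rfl⟩ n a
    rw [← rename_homogeneousComponent, key]
    exact hH n a
  · intro hG
    refine ⟨rename σ.symm G, fun n a => ?_, rename_symm σ G⟩
    rw [← key, rename_homogeneousComponent, rename_symm]
    exact hG n a

theorem rat_reindex {l : ℕ} {F : MvPolynomial ι K} {D : Set (MvPolynomial ι K) →₀ ℤ}
    (hD : D ∈ Rat K l F) : tr σ D ∈ Rat K l (rename σ F) := by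
  unfold Pool.Agent.Z15.J.Rat at hD
  induction hD using AddSubgroup.closure_induction with
  | mem D hD =>
    obtain ⟨M, _, _, Q, h, hM, hQ, hQF, hh, T, R, hRed, hT, rfl⟩ := hD
    refine AddSubgroup.subset_closure ⟨M, inferInstance, inferInstance, fun i => Q (σ.symm i), h, hM, ?_, ?_,
      hh, T, fun v i => R v (σ.symm i), fun v => ?_, fun v => ?_, ?_⟩
    · intro h0
      apply hQ
      funext i
      have := congrFun h0 (σ i)
      simpa using this
    · rw [aeval_rename]
      have h1 : ((fun i => Q (σ.symm i)) ∘ σ) = Q := by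
        funext i
        simp
      rw [h1, hQF]
    · obtain ⟨h0, c, hc, h1⟩ := hRed v
      refine ⟨fun h2 => h0 ?_, c, hc, fun i => h1 (σ.symm i)⟩
      funext i
      have := congrFun h2 (σ i)
      simpa using this
    · rw [hT, ← cyc_reindex]
      have h1 : tr σ (cyc K (R v)) = 0 ↔ cyc K (R v) = 0 := by
        unfold cyc
        rw [tr_single, Finsupp.single_eq_zero, Finsupp.single_eq_zero]
      rw [Ne, Ne, Ne, h1]
    · rw [map_sum]
      refine Finset.sum_congr rfl fun v _ => ?_
      rw [map_zsmul, cyc_reindex]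
  | zero => rw [map_zero]; exact zero_mem _
  | add D D' _ _ h h' => rw [map_add]; exact add_mem h h'
  | neg D _ h => rw [map_neg]; exact neg_mem h

theorem sat_reindex {l : ℕ} {F : MvPolynomial ι K} {c c0 : Set (MvPolynomial ι K) →₀ ℤ}
    (h : c ∈ Sat K l F c0) : tr σ c ∈ Sat K l (rename σ F) (tr σ c0) := by
  obtain ⟨N, hN, m, h1⟩ := h
  refine ⟨N, hN, m, ?_⟩
  have h2 := rat_reindex σ h1
  rwa [map_sub, map_nsmul, map_zsmul] at h2

end reindex

theorem RR_reindex {k : Type} [Field k] {ι ι' : Type} (σ : ι ≃ ι') {F : MvPolynomial ι k} {s : ℕ}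
    {fl : ℕ → ι → k} (h : RR k F s fl) : RR k (rename σ F) s (fun i j => fl i (σ.symm j)) := by
  intro K _ _ l hl E _ _ P htr hP hFP
  have h1 := h K l hl E (fun i => P (σ i)) htr (by
    intro h0
    apply hP
    funext i
    have := congrFun h0 (σ.symm i)
    simpa using this) (by
    rw [map_rename, aeval_rename] at hFP
    exact hFP)
  have h2 := sat_reindex σ h1
  rw [cyc_reindex, lin_reindex, ← map_rename] at h2
  simpa using h2

/-! ### Forms and flags -/

section forms

variable {k : Type} [Field k] {s : ℕ} {κ : Fin s → Type} {μ : Type}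

theorem aeval_sumForm (f : ∀ j, MvPolynomial (κ j) k) (g : MvPolynomial μ k) {A : Type} [CommRing A]
    [Algebra k A] (P : (Σ j, κ j) ⊕ μ → A) :
    aeval P (sumForm f g) = ∑ j, aeval (fun a => P (Sum.inl ⟨j, a⟩)) (f j) + aeval (fun b => P (Sum.inr b)) g := by
  unfold sumForm
  rw [map_add, map_sum, aeval_rename]
  congr 1
  refine Finset.sum_congr rfl fun j _ => ?_
  rw [aeval_rename]
  rfl

theorem sumForm_hom {d : ℕ} {f : ∀ j, MvPolynomial (κ j) k} {g : MvPolynomial μ k}
    (hf : ∀ j, (f j).IsHomogeneous d) (hg : g.IsHomogeneous d) : (sumForm f g).IsHomogeneous d := by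
  unfold sumForm
  refine IsHomogeneous.add ?_ hg.rename_isHomogeneous
  exact IsHomogeneous.sum _ _ _ fun j _ => (hf j).rename_isHomogeneous

theorem Gc_hom {d : ℕ} {g : MvPolynomial μ k} (hg : g.IsHomogeneous d) (c : k) :
    (Gc d g c).IsHomogeneous d := by
  unfold Gc
  refine IsHomogeneous.add hg.rename_isHomogeneous ?_
  have h1 := (isHomogeneous_C (μ ⊕ Unit) c).mul ((isHomogeneous_X k (Sum.inr () : μ ⊕ Unit)).pow d)
  rwa [one_mul, zero_add] at h1

theorem flag_zero (p : ∀ j, κ j → k) (pμ : μ → k) :
    flag p pμ 0 = Sum.elim (0 : (Σ j, κ j) → k) pμ := rfl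

theorem flag_succ (p : ∀ j, κ j → k) (pμ : μ → k) (i : ℕ) :
    flag p pμ (i + 1) = Sum.elim (fun a : Σ j, κ j => if (a.1 : ℕ) + i + 1 = s then p a.1 a.2 else 0)
      (0 : μ → k) := rfl

theorem flag_inl (p : ∀ j, κ j → k) (pμ : μ → k) (i : ℕ) (j : Fin s) (a : κ j) :
    flag p pμ i (Sum.inl ⟨j, a⟩) = if (j : ℕ) + i = s then p j a else 0 := by
  rcases i with _ | i
  · rw [flag_zero, Sum.elim_inl, Pi.zero_apply, if_neg]
    have := j.2
    omega
  · rw [flag_succ]
    rfl

theorem flag_inr (p : ∀ j, κ j → k) (pμ : μ → k) (i : ℕ) (b : μ) :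
    flag p pμ i (Sum.inr b) = if i = 0 then pμ b else 0 := by
  rcases i with _ | i
  · rfl
  · rw [if_neg (Nat.succ_ne_zero i)]
    rfl

theorem flag_li {p : ∀ j, κ j → k} {pμ : μ → k} (hp : ∀ j, p j ≠ 0) (hpμ : pμ ≠ 0) :
    LinearIndependent k fun j : Fin (s + 1) => flag p pμ j := by
  classical
  rw [Fintype.linearIndependent_iff]
  intro c hc i
  by_cases hi : (i : ℕ) = 0
  · obtain ⟨m, hm⟩ : ∃ m, pμ m ≠ 0 := by
      by_contra h
      push Not at h
      exact hpμ (funext h)
    have h1 := congrFun hc (Sum.inr m)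
    rw [Finset.sum_apply, Finset.sum_eq_single i] at h1
    · rw [Pi.smul_apply, flag_inr, if_pos hi, smul_eq_mul, Pi.zero_apply] at h1
      exact (mul_eq_zero.1 h1).resolve_right hm
    · intro j _ hj
      rw [Pi.smul_apply, flag_inr, if_neg, smul_zero]
      intro h2
      exact hj (Fin.ext (h2.trans hi.symm))
    · intro h
      exact absurd (Finset.mem_univ i) h
  · have hi2 := i.2
    have hlt : s - (i : ℕ) < s := by omega
    obtain ⟨m, hm⟩ : ∃ m, p ⟨s - i, hlt⟩ m ≠ 0 := by
      by_contra h
      push Not at h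
      exact hp _ (funext h)
    have h1 := congrFun hc (Sum.inl ⟨⟨s - i, hlt⟩, m⟩)
    rw [Finset.sum_apply, Finset.sum_eq_single i] at h1
    · rw [Pi.smul_apply, flag_inl, if_pos (by simp; omega), smul_eq_mul, Pi.zero_apply] at h1
      exact (mul_eq_zero.1 h1).resolve_right hm
    · intro j _ hj
      rw [Pi.smul_apply, flag_inl, if_neg, smul_zero]
      intro h2
      apply hj
      apply Fin.ext
      simp only at h2
      omega
    · intro h
      exact absurd (Finset.mem_univ i) h

/-- the flag is contained in the hypersurface -/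
theorem flag_vanish {d : ℕ} {f : ∀ j, MvPolynomial (κ j) k} {g : MvPolynomial μ k}
    (hf : ∀ j, (f j).IsHomogeneous d) (hg : g.IsHomogeneous d) {p : ∀ j, κ j → k} {pμ : μ → k}
    (hfp : ∀ j, eval (p j) (f j) = 0) (hgp : eval pμ g = 0) (A : Type) [CommRing A] [Algebra k A] (a : ℕ → A) :
    aeval (fun i => ∑ j ∈ Finset.range (s + 1), a j * algebraMap k A (flag p pμ j i)) (sumForm f g) = 0 := by
  rw [aeval_sumForm]
  have key : ∀ (τ : Type) (q : τ → k) (h : MvPolynomial τ k), eval q h = 0 →
      aeval (fun i => algebraMap k A (q i)) h = 0 := by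
    intro τ q h hq
    have h1 : aeval (fun i => algebraMap k A (q i)) h = algebraMap k A (eval q h) := by
      rw [← MvPolynomial.coe_aeval_eq_eval]
      exact (comp_aeval_apply _ (Algebra.ofId k A) h).symm
    rw [h1, hq, map_zero]
  have h1 : ∀ j : Fin s, aeval (fun x : κ j => ∑ i ∈ Finset.range (s + 1),
      a i * algebraMap k A (flag p pμ i (Sum.inl ⟨j, x⟩))) (f j) = 0 := by
    intro j
    have h2 : (fun x : κ j => ∑ i ∈ Finset.range (s + 1),
      a i * algebraMap k A (flag p pμ i (Sum.inl ⟨j, x⟩))) =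
      fun x => a (s - j) * algebraMap k A (p j x) := by
      funext x
      rw [Finset.sum_eq_single (s - j)]
      · rw [flag_inl, if_pos]
        have := j.2
        omega
      · intro i _ hi
        rw [flag_inl, if_neg, map_zero, mul_zero]
        intro h
        apply hi
        omega
      · intro h
        exfalso
        apply h
        rw [Finset.mem_range]
        omega
    rw [h2, aeval_smul (hf j), key _ _ _ (hfp j), mul_zero]
  have h3 : (fun x : μ => ∑ i ∈ Finset.range (s + 1), a i * algebraMap k A (flag p pμ i (Sum.inr x))) =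
      fun x => a 0 * algebraMap k A (pμ x) := by
    funext x
    rw [Finset.sum_eq_single 0]
    · rw [flag_inr, if_pos rfl]
    · intro i _ hi
      rw [flag_inr, if_neg hi, map_zero, mul_zero]
    · intro h
      exact absurd (Finset.mem_range.2 (Nat.succ_pos s)) h
  rw [Finset.sum_eq_zero fun j _ => h1 j, h3, aeval_smul hg, key _ _ _ hgp, mul_zero, add_zero]

end forms

section split

variable {s : ℕ} (κ : Fin (s + 1) → Type) (μ : Type)

/-- separation of the first block -/
def eS : (Σ j, κ j) ⊕ μ ≃ κ 0 ⊕ ((Σ j : Fin s, κ j.succ) ⊕ μ) where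
  toFun
    | Sum.inl ⟨j, a⟩ => (Fin.cases (motive := fun j => κ j → κ 0 ⊕ ((Σ j : Fin s, κ j.succ) ⊕ μ))
        (fun a => Sum.inl a) (fun i a => Sum.inr (Sum.inl ⟨i, a⟩)) j) a
    | Sum.inr m => Sum.inr (Sum.inr m)
  invFun
    | Sum.inl a => Sum.inl ⟨0, a⟩
    | Sum.inr (Sum.inl ⟨i, a⟩) => Sum.inl ⟨i.succ, a⟩
    | Sum.inr (Sum.inr m) => Sum.inr m
  left_inv := by
    rintro (⟨j, a⟩ | m)
    · induction j using Fin.cases with
      | zero => rfl
      | succ j => rfl
    · rfl
  right_inv := by
    rintro (a | ⟨i, a⟩ | m)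
    · rfl
    · rfl
    · rfl

/-- the blocks without the last summand -/
def th : (Σ j : Fin s, κ j.castSucc) ⊕ κ (Fin.last s) → (Σ j, κ j) ⊕ μ
  | Sum.inl ⟨j, a⟩ => Sum.inl ⟨j.castSucc, a⟩
  | Sum.inr a => Sum.inl ⟨Fin.last s, a⟩

theorem th_inj : Function.Injective (th κ μ) := by
  rintro (⟨j, a⟩ | a) (⟨j', a'⟩ | a') h
  · simp only [th, Sum.inl.injEq, Sigma.mk.injEq, Fin.castSucc_inj] at h
    obtain ⟨rfl, h⟩ := h
    rw [eq_of_heq h]
  · exfalso
    simp only [th, Sum.inl.injEq, Sigma.mk.injEq] at h
    exact (Fin.castSucc_lt_last j).ne h.1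
  · exfalso
    simp only [th, Sum.inl.injEq, Sigma.mk.injEq] at h
    exact (Fin.castSucc_lt_last j').ne h.1.symm
  · simp only [th, Sum.inl.injEq, Sigma.mk.injEq, true_and] at h
    rw [eq_of_heq h]

theorem th_range (x : Σ j, κ j) : Sum.inl x ∈ Set.range (th κ μ) := by
  obtain ⟨j, a⟩ := x
  induction j using Fin.lastCases with
  | last => exact ⟨Sum.inr a, rfl⟩
  | cast j => exact ⟨Sum.inl ⟨j, a⟩, rfl⟩

theorem not_range {x : (Σ j, κ j) ⊕ μ} (h : x ∉ Set.range (th κ μ)) : ∃ m, x = Sum.inr m := by
  rcases x with x | m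
  · exact absurd (th_range κ μ x) h
  · exact ⟨m, rfl⟩

end split

theorem cyc_pt {k : Type} [Field k] [CharZero k] {ι : Type} [Fintype ι] {fl : ℕ → ι → k} (hfl : fl 0 ≠ 0)
    (K : Type) [Field K] [Algebra k K] :
    cyc K (fun i => algebraMap k K (fl 0 i)) = lin K (fun i j => algebraMap k K (fl i j)) 0 := by
  have hcharK : CharZero K := charZero_of_injective_algebraMap (algebraMap k K).injective
  have h2 := Pool.Agent.T2h99.J.t_LIN K ι K 0 Fin.elim0 (fun i j => algebraMap k K (fl i j))
    (algebraicIndependent_empty_type) (by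
      apply top_unique
      intro x _
      exact IntermediateField.algebraMap_mem _ x) (by
      rw [Fintype.linearIndependent_iff]
      intro c hc i
      obtain rfl : i = 0 := by ext; omega
      rw [Fin.sum_univ_succ, Finset.univ_eq_empty, Finset.sum_empty, add_zero] at hc
      rcases smul_eq_zero.1 hc with h0 | h0
      · exact h0
      · exfalso
        apply hfl
        funext i
        exact (map_eq_zero (algebraMap k K)).1 (congrFun h0 i))
  rw [← h2]
  congr 1
  funext i
  simp

/-- IND -/
theorem t_J_INDi : T_INDi := by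
  intro hPEN hSB hSL hSA k _ _ _ d hd s
  induction s with
  | zero =>
    intro κ _ μ _ f g hf hg hκ hμ hμ0 p pμ hp hpμ hfp hgp
    refine hPEN k _ d (by omega) ?_ _ (sumForm_hom hf hg) _ ?_ ?_
    · rw [Fintype.card_sum]
      have := hμ0 rfl
      omega
    · rw [flag_zero]
      intro h0
      apply hpμ
      funext b
      exact congrFun h0 (Sum.inr b)
    · rw [← MvPolynomial.coe_aeval_eq_eval, RingHom.coe_coe, aeval_sumForm, Finset.univ_eq_empty,
        Finset.sum_empty, zero_add]
      exact hgp
  | succ s ih =>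
    intro κ _ μ _ f g hf hg hκ hμ hμ0 p pμ hp hpμ hfp hgp
    have hd0 : 0 < d := by omega
    have hF := sumForm_hom hf hg
    have hG : (sumForm (fun j : Fin s => f j.succ) g).IsHomogeneous d := sumForm_hom (fun j => hf j.succ) hg
    have hjv : ∀ {A : Type} (z : κ 0 → A) (y : (Σ j : Fin s, κ j.succ) ⊕ μ → A),
        (∀ a, jv (eS κ μ) z y (Sum.inl ⟨0, a⟩) = z a) ∧
        (∀ (j : Fin s) (a : κ j.succ), jv (eS κ μ) z y (Sum.inl ⟨j.succ, a⟩) = y (Sum.inl ⟨j, a⟩)) ∧
        ∀ m, jv (eS κ μ) z y (Sum.inr m) = y (Sum.inr m) := by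
      intro A z y
      exact ⟨fun _ => rfl, fun _ _ => rfl, fun _ => rfl⟩
    have hJoin : IsJoin (eS κ μ) (sumForm f g) (f 0) (sumForm (fun j : Fin s => f j.succ) g) := by
      intro A _ _ z y
      rw [aeval_sumForm, aeval_sumForm, Fin.sum_univ_succ, add_assoc]
      congr 1
    have hflY : ∀ i ≤ s, flag p pμ i = jv (eS κ μ) 0 (flag (fun j : Fin s => p j.succ) pμ i) := by
      intro i hi
      funext x
      rcases x with ⟨j, a⟩ | m
      · induction j using Fin.cases with
        | zero =>
          rw [(hjv _ _).1, flag_inl, if_neg, Pi.zero_apply]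
          rw [Fin.val_zero]
          omega
        | succ j =>
          rw [(hjv _ _).2.1, flag_inl, flag_inl]
          congr 1
          rw [Fin.val_succ]
          apply propext
          omega
      · rw [(hjv _ _).2.2, flag_inr, flag_inr]
    have hli : LinearIndependent k fun j : Fin (s + 2) => flag p pμ j := flag_li hp hpμ
    have hfl0 : flag p pμ 0 ≠ 0 := by
      rw [flag_zero]
      intro h0
      apply hpμ
      funext b
      exact congrFun h0 (Sum.inr b)
    have hY : ∀ c : k, (c = 0 ∨ c = 1) → RR k (Gc d (sumForm (fun j : Fin s => f j.succ) g) c) s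
        (fun i => Sum.elim (flag (fun j : Fin s => p j.succ) pμ i) 0) := by
      intro c _
      have h1 := ih (fun j => κ j.succ) (μ ⊕ Unit) (fun j => f j.succ) (Gc d g c) (fun j => hf j.succ)
        (Gc_hom hg c) (fun j => hκ j.succ) (by rw [Fintype.card_sum]; omega)
        (fun _ => by rw [Fintype.card_sum, Fintype.card_unit]; omega) (fun j => p j.succ) (Sum.elim pμ 0)
        (fun j => hp j.succ) (by
          intro h0
          apply hpμ
          funext b
          exact congrFun h0 (Sum.inl b)) (fun j => hfp j.succ) (by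
          rw [← MvPolynomial.coe_aeval_eq_eval, RingHom.coe_coe, aeval_Gc]
          simp only [Sum.elim_inl, Sum.elim_inr, Pi.zero_apply, zero_pow hd0.ne', mul_zero, add_zero]
          exact hgp)
      have h2 := RR_reindex (Equiv.sumAssoc (Σ j : Fin s, κ j.succ) μ Unit).symm h1
      have h3 : rename (Equiv.sumAssoc (Σ j : Fin s, κ j.succ) μ Unit).symm
          (sumForm (fun j : Fin s => f j.succ) (Gc d g c)) = Gc d (sumForm (fun j : Fin s => f j.succ) g) c := by
        unfold sumForm Gc
        simp only [map_add, map_sum, map_mul, map_pow, rename_rename, rename_C, rename_X]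
        rw [← add_assoc]
        rfl
      rw [h3] at h2
      have h4 : (fun (i : ℕ) (j : ((Σ j : Fin s, κ j.succ) ⊕ μ) ⊕ Unit) =>
          flag (fun j : Fin s => p j.succ) (Sum.elim pμ 0 : μ ⊕ Unit → k) i
            ((Equiv.sumAssoc (Σ j : Fin s, κ j.succ) μ Unit).symm.symm j)) =
          fun i => Sum.elim (flag (fun j : Fin s => p j.succ) pμ i) 0 := by
        funext i x
        rcases i with _ | i
        · rcases x with (x | m) | u <;> rfl
        · rcases x with (x | m) | u <;> rfl
      rw [h4] at h2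
      exact h2
    have hm : RR k (sumForm (fun j : Fin s => f j.castSucc) (f (Fin.last s))) s
        (flag (fun j : Fin s => p j.castSucc) (p (Fin.last s))) :=
      ih (fun j => κ j.castSucc) (κ (Fin.last s)) (fun j => f j.castSucc) (f (Fin.last s))
        (fun j => hf j.castSucc) (hf _) (fun j => hκ _) (by have := hκ (Fin.last s); omega)
        (fun _ => hκ _) _ _ (fun j => hp _) (hp _) (fun j => hfp _) (hfp _)
    have hSA' := hSA k _ _ _ _ d hd0 (eS κ μ) (sumForm f g) (f 0) (sumForm (fun j : Fin s => f j.succ) g)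
      hF (hf 0) hG hJoin s (flag p pμ) (flag (fun j : Fin s => p j.succ) pμ)
      (flag (fun j : Fin s => p j.castSucc) (p (Fin.last s))) (th κ μ)
      (sumForm (fun j : Fin s => f j.castSucc) (f (Fin.last s))) (th_inj κ μ) hli hflY
      (by
        intro i hi
        refine ⟨fun x => ?_, fun x hx => ?_⟩
        · rcases x with ⟨j, a⟩ | a
          · have h1 : th κ μ (Sum.inl ⟨j, a⟩) = Sum.inl ⟨j.castSucc, a⟩ := rfl
            rw [h1, flag_inl, flag_inl]
            congr 1
            rw [Fin.val_castSucc]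
            apply propext
            omega
          · have h1 : th κ μ (Sum.inr a) = Sum.inl ⟨Fin.last s, a⟩ := rfl
            rw [h1, flag_inl, flag_inr]
            congr 1
            rw [Fin.val_last]
            apply propext
            omega
        · obtain ⟨m, rfl⟩ := not_range κ μ hx
          rw [flag_inr, if_neg (Nat.succ_ne_zero i)])
      (by
        rintro (⟨j, a⟩ | a)
        · have h1 : th κ μ (Sum.inl ⟨j, a⟩) = Sum.inl ⟨j.castSucc, a⟩ := rfl
          rw [h1, flag_zero, Sum.elim_inl, Pi.zero_apply]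
        · have h1 : th κ μ (Sum.inr a) = Sum.inl ⟨Fin.last s, a⟩ := rfl
          rw [h1, flag_zero, Sum.elim_inl, Pi.zero_apply])
      (by
        intro x hx
        obtain ⟨m, rfl⟩ := not_range κ μ hx
        exact ⟨Sum.inr m, rfl⟩)
      (by
        intro A _ _ P α hP
        rw [aeval_sumForm, aeval_sumForm, Fin.sum_univ_castSucc]
        have h1 : aeval (fun b => α * algebraMap k A (flag p pμ 0 (Sum.inr b)) + P (Sum.inr b)) g = 0 := by
          have h2 : (fun b => α * algebraMap k A (flag p pμ 0 (Sum.inr b)) + P (Sum.inr b)) =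
              fun b => α * algebraMap k A (pμ b) := by
            funext b
            have h3 : Sum.inr b ∉ Set.range (th κ μ) := by
              rintro ⟨x, hx⟩
              rcases x with ⟨j, a⟩ | a
              · simp [th] at hx
              · simp [th] at hx
            rw [hP _ h3, add_zero]
            rfl
          have h4 : aeval (fun b => algebraMap k A (pμ b)) g = algebraMap k A (eval pμ g) := by
            rw [← MvPolynomial.coe_aeval_eq_eval]
            exact (comp_aeval_apply _ (Algebra.ofId k A) g).symm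
          rw [h2, aeval_smul hg, h4, hgp, map_zero, mul_zero]
        rw [h1, add_zero]
        congr 1
        · refine Finset.sum_congr rfl fun j _ => ?_
          congr 2
          funext a
          have h5 : flag p pμ 0 (Sum.inl ⟨j.castSucc, a⟩) = 0 := rfl
          rw [h5, map_zero, mul_zero, zero_add]
          rfl
        · congr 2
          funext a
          have h5 : flag p pμ 0 (Sum.inl ⟨Fin.last s, a⟩) = 0 := rfl
          rw [h5, map_zero, mul_zero, zero_add]
          rfl)
      (fun A _ _ a => flag_vanish hf hg hfp hgp A a)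
      hY hm
    intro K _ _ l hl E _ _ P htr hP hFP
    refine hSB k _ _ _ d hd0 (hκ 0) (eS κ μ) (sumForm f g) (f 0) (sumForm (fun j : Fin s => f j.succ) g) hF
      (hf 0) hG hJoin (flag (fun j : Fin s => p j.succ) pμ 0) ?_ ?_ K l _ ?_ ?_ E P htr hP hFP
    · rw [flag_zero]
      intro h0
      apply hpμ
      funext b
      exact congrFun h0 (Sum.inr b)
    · rw [← MvPolynomial.coe_aeval_eq_eval, RingHom.coe_coe, aeval_sumForm]
      have h1 : ∀ j : Fin s, aeval (fun a => flag (fun j : Fin s => p j.succ) pμ 0 (Sum.inl ⟨j, a⟩))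
          (f j.succ) = 0 := by
        intro j
        have h2 : (fun a => flag (fun j : Fin s => p j.succ) pμ 0 (Sum.inl ⟨j, a⟩)) =
            fun a => (0 : k) * p j.succ a := by
          funext a
          rw [zero_mul]
          rfl
        rw [h2, aeval_smul (hf _), zero_pow hd0.ne', zero_mul]
      rw [Finset.sum_eq_zero fun j _ => h1 j, zero_add]
      exact hgp
    · rintro rfl
      rw [← hflY 0 (Nat.zero_le s), cyc_pt hfl0 K]
      exact Sat.self
    · intro κ' _ _ htr' z B hzB hV
      obtain ⟨N, δ, hN, hδ, hTY⟩ := hSL k _ _ _ d hd0 (hκ 0) (eS κ μ) (sumForm f g) (f 0)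
        (sumForm (fun j : Fin s => f j.succ) g) hF (hf 0) hG hJoin K l κ' htr' z B hzB hV
      exact Sat.of_nsmul hN (hSA' K l δ hl hδ _ hTY)

end Pool.Agent.T2h62.J15
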